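import Pool.Agent.Helper60_AEU.Stmt
import Pool.Agent.Helper8_TRI.Heat

/-!
AEU, Part III, module K:IDT: uniqueness (helper36).
-/

namespace Pool.Agent.H60K.H36

open MeasureTheory Complex Filter Topology ProbabilityTheory Pool.Agent.H16Iso Pool.Agent.H62T
  Pool.Agent.H16F Pool.Agent.H38KL
open scoped ENNReal NNReal

theorem G_le_double {δ r : ℝ} (hδ : 0 < δ) (w : ℂ) (hr : 0 ≤ r) (h : r ≤ ‖w‖) :
    G δ w ≤ 2 * Real.exp (-(r ^ 2 / (8 * δ))) * G (2 * δ) w := by
  unfold G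
  have h1 : Real.exp (-(‖w‖ ^ 2) / (4 * δ)) ≤
      Real.exp (-(r ^ 2 / (8 * δ))) * Real.exp (-(‖w‖ ^ 2) / (4 * (2 * δ))) := by
    rw [← Real.exp_add]
    apply Real.exp_le_exp.2
    have h2 : -(‖w‖ ^ 2) / (4 * δ) = -(‖w‖ ^ 2 / (8 * δ)) + -(‖w‖ ^ 2) / (4 * (2 * δ)) := by
      field_simp
      ring
    rw [h2]
    have h3 : r ^ 2 / (8 * δ) ≤ ‖w‖ ^ 2 / (8 * δ) := by
      have : r ^ 2 ≤ ‖w‖ ^ 2 := by
        exact pow_le_pow_left₀ hr h 2
      gcongr
    linarith
  have h4 : Real.exp (-(‖w‖ ^ 2) / (4 * δ)) / (4 * Real.pi * δ) ≤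
      Real.exp (-(r ^ 2 / (8 * δ))) * Real.exp (-(‖w‖ ^ 2) / (4 * (2 * δ))) /
        (4 * Real.pi * δ) := by
    have := Real.pi_pos
    gcongr
  refine h4.trans (le_of_eq ?_)
  have := Real.pi_pos
  field_simp
  try ring

theorem G_shift_integrable {δ : ℝ} (hδ : 0 < δ) (z : ℂ) : Integrable fun y => G δ (z - y) := by
  exact (H8.G_integrable hδ).comp_sub_left z

theorem G_shift_integral {δ : ℝ} (hδ : 0 < δ) (z : ℂ) : ∫ y, G δ (z - y) = 1 := by
  rw [integral_sub_left_eq_self (fun y => G δ y) volume z]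
  exact H8.G_integral hδ

theorem tail_le {δ r : ℝ} (hδ : 0 < δ) (hr : 0 ≤ r) (z : ℂ) :
    ∫ y in (Metric.ball z r)ᶜ, G δ (z - y) ≤ 2 * Real.exp (-(r ^ 2 / (8 * δ))) := by
  have hi := G_shift_integrable (δ := 2 * δ) (by positivity) z
  calc ∫ y in (Metric.ball z r)ᶜ, G δ (z - y)
      ≤ ∫ y in (Metric.ball z r)ᶜ, 2 * Real.exp (-(r ^ 2 / (8 * δ))) * G (2 * δ) (z - y) := by
        refine setIntegral_mono_on (G_shift_integrable hδ z).integrableOn
          (hi.const_mul _).integrableOn Metric.isOpen_ball.measurableSet.compl ?_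
        intro y hy
        apply G_le_double hδ _ hr
        have : ¬ dist y z < r := hy
        rw [dist_comm, dist_eq_norm] at this
        exact not_lt.1 this
    _ = 2 * Real.exp (-(r ^ 2 / (8 * δ))) * ∫ y in (Metric.ball z r)ᶜ, G (2 * δ) (z - y) := by
        rw [integral_const_mul]
    _ ≤ 2 * Real.exp (-(r ^ 2 / (8 * δ))) * ∫ y, G (2 * δ) (z - y) := by
        refine mul_le_mul_of_nonneg_left ?_ (by positivity)
        exact setIntegral_le_integral hi
          (Eventually.of_forall fun y => H8.G_nonneg (by positivity) _)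
    _ = 2 * Real.exp (-(r ^ 2 / (8 * δ))) := by
        rw [G_shift_integral (by positivity), mul_one]

theorem intOn_ball {δ : ℝ} (hδ : 0 < δ) {v : ℂ → ℝ} (hv : Measurable v) {z : ℂ} {r M : ℝ}
    (hM : ∀ y ∈ Metric.closedBall z r, |v y| ≤ M) :
    IntegrableOn (fun y => G δ (z - y) * v y) (Metric.ball z r) := by
  have h1 : Measurable fun y : ℂ => G δ (z - y) :=
    (H8.G_meas δ).comp (measurable_const.sub measurable_id)
  refine Integrable.mono' ((G_shift_integrable hδ z).mul_const M).integrableOn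
    (h1.mul hv).aestronglyMeasurable ?_
  filter_upwards [ae_restrict_mem Metric.isOpen_ball.measurableSet] with y hy
  rw [Real.norm_eq_abs, abs_mul, abs_of_nonneg (H8.G_nonneg hδ _)]
  exact mul_le_mul_of_nonneg_left (hM y (Metric.ball_subset_closedBall hy)) (H8.G_nonneg hδ _)

theorem shrink {δ : ℝ} (hδ : 0 < δ) {v : ℂ → ℝ} (hv : Measurable v) {z : ℂ} {r r1 M : ℝ}
    (hr : 0 ≤ r) (hr1 : r ≤ r1) (hM0 : 0 ≤ M) (hM : ∀ y ∈ Metric.closedBall z r1, |v y| ≤ M) :
    |(∫ y in Metric.ball z r1, G δ (z - y) * v y) - ∫ y in Metric.ball z r, G δ (z - y) * v y|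
      ≤ M * (2 * Real.exp (-(r ^ 2 / (8 * δ)))) := by
  have hi := intOn_ball hδ hv hM
  have hms : MeasurableSet (Metric.ball z r) := Metric.isOpen_ball.measurableSet
  have hsub : Metric.ball z r ⊆ Metric.ball z r1 := Metric.ball_subset_ball hr1
  rw [← setIntegral_sdiff hms hi hsub]
  have hi2 := hi.mono_set (Set.sdiff_subset (s := Metric.ball z r1) (t := Metric.ball z r))
  have hc := (G_shift_integrable hδ z)
  calc |∫ y in Metric.ball z r1 \ Metric.ball z r, G δ (z - y) * v y|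
      ≤ ∫ y in Metric.ball z r1 \ Metric.ball z r, |G δ (z - y) * v y| :=
        abs_integral_le_integral_abs
    _ ≤ ∫ y in Metric.ball z r1 \ Metric.ball z r, G δ (z - y) * M := by
        refine setIntegral_mono_on hi2.abs (hc.mul_const M).integrableOn
          (Metric.isOpen_ball.measurableSet.diff hms) ?_
        intro y hy
        rw [abs_mul, abs_of_nonneg (H8.G_nonneg hδ _)]
        exact mul_le_mul_of_nonneg_left (hM y (Metric.ball_subset_closedBall hy.1))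
          (H8.G_nonneg hδ _)
    _ ≤ ∫ y in (Metric.ball z r)ᶜ, G δ (z - y) * M := by
        refine setIntegral_mono_set (hc.mul_const M).integrableOn ?_ ?_
        · exact Eventually.of_forall fun y => mul_nonneg (H8.G_nonneg hδ _) hM0
        · exact (Set.sdiff_subset_compl _ _).eventuallyLE
    _ = M * ∫ y in (Metric.ball z r)ᶜ, G δ (z - y) := by
        rw [integral_mul_const, mul_comm]
    _ ≤ M * (2 * Real.exp (-(r ^ 2 / (8 * δ)))) := by
        gcongr
        exact tail_le hδ hr z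

theorem exp_tail {δ r : ℝ} (hδ : 0 < δ) (hr : 0 < r) :
    2 * Real.exp (-(r ^ 2 / (8 * δ))) ≤ 256 * δ ^ 2 / r ^ 4 := by
  set x := r ^ 2 / (8 * δ) with hx
  have hx0 : 0 < x := by positivity
  have h1 := Real.quadratic_le_exp_of_nonneg hx0.le
  have h2 : Real.exp (-x) ≤ 2 / x ^ 2 := by
    rw [Real.exp_neg, inv_eq_one_div, div_le_div_iff₀ (Real.exp_pos _) (by positivity)]
    nlinarith
  calc 2 * Real.exp (-x) ≤ 2 * (2 / x ^ 2) := by gcongr
    _ = 256 * δ ^ 2 / r ^ 4 := by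
        rw [hx]
        field_simp
        ring

theorem one_sub_exp {x : ℝ} (hx : 0 ≤ x) (hx1 : x ≤ 1) : x / 2 ≤ 1 - Real.exp (-x) := by
  have h1 := Real.add_one_le_exp x
  have h2 : Real.exp (-x) ≤ 1 / (1 + x) := by
    rw [Real.exp_neg, inv_eq_one_div]
    apply one_div_le_one_div_of_le (by linarith)
    linarith
  have h3 : 1 / (1 + x) ≤ 1 - x / 2 := by
    rw [div_le_iff₀ (by linarith)]
    nlinarith
  linarith

theorem idt_le (s : ℝ) (W : Set ℂ) (D B : ℂ → ℝ) (hs : 0 < s) (hDm : Measurable D)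
    (hBm : Measurable B) (hD : LMP s W D) (hB : LMP s W B) (hB0 : ∀ z ∈ W, 0 ≤ B z)
    (hb : ∀ ε : ℝ, 0 < ε → ∃ K : Set ℂ, IsCompact K ∧ K ⊆ W ∧ ∀ z ∈ W, z ∉ K →
      D z ≤ ε * (1 + B z)) : ∀ z ∈ W, D z ≤ 0 := by
  by_contra hcon
  push Not at hcon
  obtain ⟨z0, hz0, hDz⟩ := hcon
  have hB1 : 0 < 1 + B z0 := by have := hB0 z0 hz0; linarith
  obtain ⟨ε, hε⟩ : ∃ ε, ε = D z0 / (2 * (1 + B z0)) := ⟨_, rfl⟩
  have hε0 : 0 < ε := by rw [hε]; positivity
  obtain ⟨K, hK, hKW, hKb⟩ := hb ε hε0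
  obtain ⟨H, hH⟩ : ∃ H : ℂ → ℝ, H = fun z => D z - ε * (1 + B z) := ⟨_, rfl⟩
  have hHz : H z0 = D z0 / 2 := by
    rw [hH, hε]
    field_simp
    ring
  have hHz0 : 0 < H z0 := by rw [hHz]; positivity
  have hz0K : z0 ∈ K := by
    by_contra hn
    have := hKb z0 hz0 hn
    have h2 : H z0 = D z0 - ε * (1 + B z0) := by rw [hH]
    linarith
  obtain ⟨r1, hr1, hbW1, ⟨M1, hM1⟩, hL1⟩ := hD K hK hKW
  obtain ⟨r2, hr2, hbW2, ⟨M2, hM2⟩, hL2⟩ := hB K hK hKW
  have hM10 : 0 ≤ M1 := (abs_nonneg _).trans (hM1 z0 hz0K z0 (Metric.mem_closedBall_self hr1.le))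
  have hM20 : 0 ≤ M2 := (abs_nonneg _).trans (hM2 z0 hz0K z0 (Metric.mem_closedBall_self hr2.le))
  have hbdd : BddAbove (H '' K) := by
    refine ⟨M1, ?_⟩
    rintro _ ⟨z, hz, rfl⟩
    have h1 := hM1 z hz z (Metric.mem_closedBall_self hr1.le)
    have h2 := hB0 z (hKW hz)
    have h3 : H z = D z - ε * (1 + B z) := by rw [hH]
    rw [h3]
    have h4 := le_abs_self (D z)
    have h5 : 0 ≤ ε * (1 + B z) := by positivity
    linarith
  obtain ⟨M, hM⟩ : ∃ M, M = sSup (H '' K) := ⟨_, rfl⟩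
  have hHM : ∀ z ∈ K, H z ≤ M := fun z hz => hM ▸ le_csSup hbdd ⟨z, hz, rfl⟩
  have hMpos : 0 < M := hHz0.trans_le (hHM z0 hz0K)
  have hHW : ∀ z ∈ W, H z ≤ M := by
    intro z hz
    by_cases hzK : z ∈ K
    · exact hHM z hzK
    · have h1 := hKb z hz hzK
      have h3 : H z = D z - ε * (1 + B z) := by rw [hH]
      linarith
  obtain ⟨r, hr⟩ : ∃ r, r = min r1 r2 := ⟨_, rfl⟩
  have hr0 : 0 < r := by rw [hr]; exact lt_min hr1 hr2
  have hrr1 : r ≤ r1 := by rw [hr]; exact min_le_left _ _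
  have hrr2 : r ≤ r2 := by rw [hr]; exact min_le_right _ _
  obtain ⟨η, hη⟩ : ∃ η, η = M * s / (4 * (2 + ε)) := ⟨_, rfl⟩
  have hη0 : 0 < η := by rw [hη]; positivity
  obtain ⟨δ1, hδ1, hE1⟩ := hL1 η hη0
  obtain ⟨δ2, hδ2, hE2⟩ := hL2 η hη0
  obtain ⟨Q, hQ⟩ : ∃ Q, Q = (M1 + ε * M2) * (256 / r ^ 4) := ⟨_, rfl⟩
  have hQ0 : 0 ≤ Q := by rw [hQ]; positivity
  obtain ⟨δ, hδ0, hδ⟩ : ∃ δ, 0 < δ ∧ δ < min (min δ1 δ2) (min (1 / s) (η / (Q + 1))) :=
    exists_between (by positivity)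
  have hd1 : δ < δ1 := hδ.trans_le ((min_le_left _ _).trans (min_le_left _ _))
  have hd2 : δ < δ2 := hδ.trans_le ((min_le_left _ _).trans (min_le_right _ _))
  have hd3 : δ < 1 / s := hδ.trans_le ((min_le_right _ _).trans (min_le_left _ _))
  have hd4 : δ < η / (Q + 1) := hδ.trans_le ((min_le_right _ _).trans (min_le_right _ _))
  obtain ⟨E, hE⟩ : ∃ E, E = Real.exp (-(s * δ)) := ⟨_, rfl⟩
  have hEpos : 0 < E := by rw [hE]; exact Real.exp_pos _
  have hE1' : E ≤ 1 := by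
    rw [hE]
    apply Real.exp_le_one_iff.2
    have : 0 < s * δ := by positivity
    linarith
  obtain ⟨T, hT⟩ : ∃ T, T = 2 * Real.exp (-(r ^ 2 / (8 * δ))) := ⟨_, rfl⟩
  have hT0 : 0 ≤ T := by rw [hT]; positivity
  have hTle : T ≤ 256 * δ ^ 2 / r ^ 4 := by rw [hT]; exact exp_tail hδ0 hr0
  -- the main estimate
  have hmain : ∀ z ∈ K, H z ≤ E * M + (M1 + ε * M2) * T + η * (1 + ε) * δ := by
    intro z hz
    have e1 := abs_le.1 (hE1 δ hδ0 hd1 z hz)
    have e2 := abs_le.1 (hE2 δ hδ0 hd2 z hz)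
    rw [← hE] at e1 e2
    have s1 := abs_le.1 (shrink hδ0 hDm hr0.le hrr1 hM10 (hM1 z hz))
    have s2 := abs_le.1 (shrink hδ0 hBm hr0.le hrr2 hM20 (hM2 z hz))
    rw [← hT] at s1 s2
    have hi1 := (intOn_ball hδ0 hDm (hM1 z hz)).mono_set
      (Metric.ball_subset_ball hrr1)
    have hi2 := (intOn_ball hδ0 hBm (hM2 z hz)).mono_set
      (Metric.ball_subset_ball hrr2)
    obtain ⟨a1, ha1⟩ : ∃ a, a = ∫ y in Metric.ball z r1, G δ (z - y) * D y := ⟨_, rfl⟩
    obtain ⟨a, ha⟩ : ∃ a, a = ∫ y in Metric.ball z r, G δ (z - y) * D y := ⟨_, rfl⟩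
    obtain ⟨b2, hb2⟩ : ∃ a, a = ∫ y in Metric.ball z r2, G δ (z - y) * B y := ⟨_, rfl⟩
    obtain ⟨b, hbb⟩ : ∃ a, a = ∫ y in Metric.ball z r, G δ (z - y) * B y := ⟨_, rfl⟩
    rw [← ha1] at e1
    rw [← hb2] at e2
    rw [← ha1, ← ha] at s1
    rw [← hb2, ← hbb] at s2
    have hab : a - ε * b ≤ M + ε := by
      have h1 : a - ε * b = ∫ y in Metric.ball z r, (G δ (z - y) * D y - ε * (G δ (z - y) * B y)) := by
        rw [integral_sub hi1 (hi2.const_mul ε), integral_const_mul, ha, hbb]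
      have hg : IntegrableOn (fun y => G δ (z - y)) (Metric.ball z r) :=
        (G_shift_integrable hδ0 z).integrableOn
      have h2 : ∫ y in Metric.ball z r, (G δ (z - y) * D y - ε * (G δ (z - y) * B y)) ≤
          ∫ y in Metric.ball z r, G δ (z - y) * (M + ε) := by
        refine setIntegral_mono_on (hi1.sub (hi2.const_mul ε)) (hg.mul_const _)
          Metric.isOpen_ball.measurableSet ?_
        intro y hy
        have hyW : y ∈ W := hbW1 z hz (Metric.ball_subset_closedBall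
          (Metric.ball_subset_ball hrr1 hy))
        have h3 : D y - ε * B y ≤ M + ε := by
          have h4 := hHW y hyW
          have h5 : H y = D y - ε * (1 + B y) := by rw [hH]
          linarith
        have h6 := mul_le_mul_of_nonneg_left h3 (H8.G_nonneg hδ0 (z - y))
        calc G δ (z - y) * D y - ε * (G δ (z - y) * B y)
            = G δ (z - y) * (D y - ε * B y) := by ring
          _ ≤ _ := h6
      have h7 : ∫ y in Metric.ball z r, G δ (z - y) * (M + ε) ≤ M + ε := by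
        rw [integral_mul_const]
        have h8 : ∫ y in Metric.ball z r, G δ (z - y) ≤ 1 := by
          rw [← G_shift_integral hδ0 z]
          exact setIntegral_le_integral (G_shift_integrable hδ0 z)
            (Eventually.of_forall fun y => H8.G_nonneg hδ0 _)
        nlinarith only [h8, hMpos, hε0]
      linarith
    have hz3 : H z = D z - ε * (1 + B z) := by rw [hH]
    rw [hz3]
    have f1 : D z ≤ E * a + E * (M1 * T) + η * δ := by
      have : E * a1 ≤ E * (a + M1 * T) := by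
        apply mul_le_mul_of_nonneg_left _ hEpos.le
        linarith
      linarith only [this, e1.1, e1.2]
    have f2 : E * b - E * (M2 * T) - η * δ ≤ B z := by
      have : E * (b - M2 * T) ≤ E * b2 := by
        apply mul_le_mul_of_nonneg_left _ hEpos.le
        linarith
      linarith only [this, e2.1, e2.2]
    have f3 : E * (M1 * T) ≤ M1 * T := mul_le_of_le_one_left (by positivity) hE1'
    have f4 : E * (M2 * T) ≤ M2 * T := mul_le_of_le_one_left (by positivity) hE1'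
    have f5 : E * (a - ε * b) ≤ E * (M + ε) := mul_le_mul_of_nonneg_left hab hEpos.le
    have f6 : E * ε ≤ ε := mul_le_of_le_one_left hε0.le hE1'
    have f7 := mul_le_mul_of_nonneg_left f2 hε0.le
    have f8 := mul_le_mul_of_nonneg_left f4 hε0.le
    linarith only [f1, f3, f5, f6, f7, f8]
  have hsup : M ≤ E * M + (M1 + ε * M2) * T + η * (1 + ε) * δ := by
    have hne : (H '' K).Nonempty := ⟨H z0, z0, hz0K, rfl⟩
    have hle : sSup (H '' K) ≤ E * M + (M1 + ε * M2) * T + η * (1 + ε) * δ := by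
      apply csSup_le hne
      rintro _ ⟨z, hz, rfl⟩
      exact hmain z hz
    rw [← hM] at hle
    exact hle
  have hsδ : s * δ ≤ 1 := by
    have := (lt_div_iff₀ hs).1 hd3
    linarith
  have h1 := one_sub_exp (x := s * δ) (by positivity) hsδ
  rw [← hE] at h1
  have h2 : (M1 + ε * M2) * T ≤ η * δ := by
    have h3 : (M1 + ε * M2) * T ≤ (M1 + ε * M2) * (256 * δ ^ 2 / r ^ 4) := by
      gcongr
    have h4 : (M1 + ε * M2) * (256 * δ ^ 2 / r ^ 4) = Q * δ * δ := by
      rw [hQ]; ring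
    have h5 : Q * δ ≤ η := by
      have := (lt_div_iff₀ (by positivity : (0:ℝ) < Q + 1)).1 hd4
      linarith only [this, hδ0]
    have h6 := mul_le_mul_of_nonneg_right h5 hδ0.le
    linarith
  have h3 : M * (s * δ / 2) ≤ M * (1 - E) := mul_le_mul_of_nonneg_left h1 hMpos.le
  have h4 : η * (2 + ε) = M * s / 4 := by
    rw [hη]
    field_simp
  have h5 : 0 < M * s * δ := by positivity
  have h6 : η * (2 + ε) * δ = M * s / 4 * δ := by rw [h4]
  linarith only [h2, h3, h6, h5, hsup]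

theorem LMP_neg {s : ℝ} {W : Set ℂ} {v : ℂ → ℝ} (h : LMP s W v) : LMP s W (fun z => -v z) := by
  intro K hK hKW
  obtain ⟨r, hr, h1, ⟨M, hM⟩, h2⟩ := h K hK hKW
  refine ⟨r, hr, h1, ⟨M, fun z hz y hy => by rw [abs_neg]; exact hM z hz y hy⟩, ?_⟩
  intro ε hε
  obtain ⟨δ0, hδ0, h3⟩ := h2 ε hε
  refine ⟨δ0, hδ0, fun δ hδ hδ' z hz => ?_⟩
  have h4 := h3 δ hδ hδ' z hz
  have h5 : ∫ y in Metric.ball z r, G δ (z - y) * -v y =
      -∫ y in Metric.ball z r, G δ (z - y) * v y := by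
    rw [← integral_neg]
    congr 1
    ext y
    ring
  rw [h5]
  rw [← abs_neg]
  convert h4 using 2
  ring

/-- IDT: uniqueness -/
theorem idt : IdtStatement := by
  intro s W D B hs _ hDm hBm hD hB hB0 hb z hz
  apply le_antisymm
  · refine idt_le s W D B hs hDm hBm hD hB hB0 ?_ z hz
    intro ε hε
    obtain ⟨K, hK, hKW, h⟩ := hb ε hε
    exact ⟨K, hK, hKW, fun z hz hzK => (le_abs_self _).trans (h z hz hzK)⟩
  · have := idt_le s W (fun z => -D z) B hs hDm.neg hBm (LMP_neg hD) hB hB0 ?_ z hz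
    · linarith
    intro ε hε
    obtain ⟨K, hK, hKW, h⟩ := hb ε hε
    exact ⟨K, hK, hKW, fun z hz hzK => (neg_le_abs _).trans (h z hz hzK)⟩

end Pool.Agent.H60K.H36
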